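import Pool.Agent.Q72.EG.Stm

/-! Project EG of helper72, job ELIM. -/

set_option autoImplicit false

namespace Pool.Agent.Q252.EG

open MvPolynomial Pool.Agent.Q72.EG

theorem bezout {A : Type} [CommRing A] [IsDomain A] [UniqueFactorizationMonoid A] {p r : Polynomial A}
    (hirr : Irreducible p) (hdeg : p.natDegree ≠ 0) (hnd : ¬ p ∣ r) :
    ∃ (ρ : A) (α β : Polynomial A), ρ ≠ 0 ∧ Polynomial.C ρ = α * p + β * r := by
  classical
  have hR0 : r ≠ 0 := fun h => hnd (h ▸ dvd_zero _)
  let _ : NormalizedGCDMonoid A := Classical.choice (inferInstance : Nonempty (NormalizedGCDMonoid A))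
  let F := FractionRing A
  have hprim := hirr.isPrimitive hdeg
  have hirrF : Irreducible (p.map (algebraMap A F)) :=
    (Polynomial.IsPrimitive.irreducible_iff_irreducible_map_fraction_map (K := F) hprim).1 hirr
  have hndF : ¬ p.map (algebraMap A F) ∣ r.map (algebraMap A F) := by
    intro h
    apply hnd
    have h1 := r.eq_C_content_mul_primPart
    have hc : r.content ≠ 0 := by rwa [Ne, Polynomial.content_eq_zero_iff]
    have h2 : p.map (algebraMap A F) ∣ r.primPart.map (algebraMap A F) := by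
      rw [h1, Polynomial.map_mul, Polynomial.map_C] at h
      have hu : IsUnit (Polynomial.C (algebraMap A F r.content)) := by
        rw [Polynomial.isUnit_C, isUnit_iff_ne_zero]
        rwa [Ne, FaithfulSMul.algebraMap_eq_zero_iff]
      exact (hu.dvd_mul_left).1 h
    have h3 := Polynomial.IsPrimitive.dvd_of_fraction_map_dvd_fraction_map (K := F) hprim h2
    exact h3.trans (r.primPart_dvd)
  have hcop : IsCoprime (p.map (algebraMap A F)) (r.map (algebraMap A F)) :=
    (hirrF.coprime_iff_not_dvd).2 hndF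
  obtain ⟨α', β', hαβ⟩ := hcop
  obtain ⟨b1, hb1, h1⟩ := IsLocalization.integerNormalization_spec (nonZeroDivisors A) α'
  obtain ⟨b2, hb2, h2⟩ := IsLocalization.integerNormalization_spec (nonZeroDivisors A) β'
  refine ⟨b1 * b2, Polynomial.C b2 * IsLocalization.integerNormalization (nonZeroDivisors A) α',
    Polynomial.C b1 * IsLocalization.integerNormalization (nonZeroDivisors A) β',
    mul_ne_zero (nonZeroDivisors.ne_zero hb1) (nonZeroDivisors.ne_zero hb2), ?_⟩
  apply Polynomial.map_injective (algebraMap A F) (FaithfulSMul.algebraMap_injective A F)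
  rw [Polynomial.map_add, Polynomial.map_mul, Polynomial.map_mul, Polynomial.map_mul,
    Polynomial.map_mul, h1, h2, Polynomial.map_C, Polynomial.map_C, Polynomial.map_C]
  have e1 : ∀ (b : A) (q : Polynomial F), b • q = Polynomial.C (algebraMap A F b) * q := by
    intro b q
    rw [← Polynomial.smul_eq_C_mul, algebraMap_smul]
  rw [e1, e1, map_mul, map_mul]
  linear_combination (-(Polynomial.C (algebraMap A F b1) * Polynomial.C (algebraMap A F b2))) * hαβ

/-- the substitution `(u, w) ↦ (u + w a, w)` -/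
noncomputable def sub {n : ℕ} (a : Fin n → ℂ) :
    MvPolynomial (Option (Fin n)) ℂ →ₐ[ℂ] MvPolynomial (Option (Fin n)) ℂ :=
  aeval (fun o : Option (Fin n) => o.elim (X none) (fun l => X (some l) + C (a l) * X none))

theorem sub_comp {n : ℕ} (a : Fin n → ℂ) :
    (sub a).comp (sub (fun l => - a l)) = AlgHom.id ℂ _ := by
  refine MvPolynomial.algHom_ext fun o => ?_
  rcases o with _ | l
  · simp [sub]
  · simp [sub]

/-- the automorphism -/
noncomputable def subE {n : ℕ} (a : Fin n → ℂ) :
    MvPolynomial (Option (Fin n)) ℂ ≃ₐ[ℂ] MvPolynomial (Option (Fin n)) ℂ :=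
  AlgEquiv.ofAlgHom (sub a) (sub (fun l => - a l)) (sub_comp a)
    (by have := sub_comp (fun l => - a l); simpa only [neg_neg] using this)

theorem eval_sub {n : ℕ} (a : Fin n → ℂ) (w : ℂ) (u : Fin n → ℂ)
    (H : MvPolynomial (Option (Fin n)) ℂ) :
    eval (oe w u) (subE a H) = eval (oe w (fun l => u l + w * a l)) H := by
  have h : ((aeval (oe w u) : MvPolynomial (Option (Fin n)) ℂ →ₐ[ℂ] ℂ).comp (sub a)) =
      aeval (oe w (fun l => u l + w * a l)) := by
    refine MvPolynomial.algHom_ext fun o => ?_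
    rcases o with _ | l
    · simp [sub]
    · simp [sub, mul_comm]
  have h2 := DFunLike.congr_fun h H
  have h3 : eval (oe w u) (sub a H) = eval (oe w (fun l => u l + w * a l)) H := by
    simpa [MvPolynomial.aeval_eq_eval] using h2
  exact h3

theorem eval_e {n : ℕ} (w : ℂ) (u : Fin n → ℂ) (H : MvPolynomial (Option (Fin n)) ℂ) :
    eval (oe w u) H = ((optionEquivLeft ℂ (Fin n) H).map (eval u)).eval w := by
  have h := aeval_oe w u H
  rw [Polynomial.eval_map]
  simpa [MvPolynomial.aeval_eq_eval] using h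

theorem e_rename {n : ℕ} (P : MvPolynomial (Fin n) ℂ) :
    optionEquivLeft ℂ (Fin n) (rename some P) = Polynomial.C P := by
  induction P using MvPolynomial.induction_on with
  | C c => simp [optionEquivLeft_C]
  | add p q hp hq => rw [map_add, map_add, hp, hq, map_add]
  | mul_X p i hp =>
    rw [map_mul, map_mul, hp, rename_X, optionEquivLeft_X_some, map_mul]

/-- the polynomial `P(u + w a)` in `(w, u)` -/
noncomputable def hat {n : ℕ} (a : Fin n → ℝ) (P : MvPolynomial (Fin n) ℂ) :
    Polynomial (MvPolynomial (Fin n) ℂ) :=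
  optionEquivLeft ℂ (Fin n) (subE (fun l => (a l : ℂ)) (rename some P))

theorem eval_hat {n : ℕ} (a : Fin n → ℝ) (P : MvPolynomial (Fin n) ℂ) (w : ℂ) (u : Fin n → ℂ) :
    ((hat a P).map (eval u)).eval w = eval (fun l => u l + w * (a l : ℂ)) P := by
  unfold hat
  rw [← eval_e, eval_sub, eval_rename]
  rfl

theorem hat_prime {n : ℕ} (a : Fin n → ℝ) {P : MvPolynomial (Fin n) ℂ} (hP : Irreducible P) :
    Prime (hat a P) := by
  unfold hat
  have h1 : Prime (Polynomial.C P) := Polynomial.prime_C_iff.2 hP.prime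
  have h2 : Prime (rename some P : MvPolynomial (Option (Fin n)) ℂ) := by
    rw [← e_rename] at h1
    exact (MulEquiv.prime_iff (optionEquivLeft ℂ (Fin n)).toMulEquiv).1 h1
  have h3 : Prime (subE (fun l => (a l : ℂ)) (rename some P)) :=
    (MulEquiv.prime_iff (subE (fun l => (a l : ℂ))).toMulEquiv).2 h2
  exact (MulEquiv.prime_iff (optionEquivLeft ℂ (Fin n)).toMulEquiv).2 h3

theorem hat_dvd {n : ℕ} (a : Fin n → ℝ) {P R : MvPolynomial (Fin n) ℂ} (h : hat a P ∣ hat a R) :
    P ∣ R := by
  unfold hat at h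
  have h1 := (map_dvd_iff (optionEquivLeft ℂ (Fin n))).1 h
  have h2 : (rename some P : MvPolynomial (Option (Fin n)) ℂ) ∣ rename some R :=
    (map_dvd_iff (subE (fun l => (a l : ℂ)))).1 h1
  have h3 : optionEquivLeft ℂ (Fin n) (rename some P) ∣ optionEquivLeft ℂ (Fin n) (rename some R) :=
    (map_dvd_iff (optionEquivLeft ℂ (Fin n))).2 h2
  rw [e_rename, e_rename] at h3
  have h4 := (Polynomial.C_dvd_iff_dvd_coeff _ _).1 h3 0
  simpa using h4

theorem hat_deg {n : ℕ} (a : Fin n → ℝ) {P : MvPolynomial (Fin n) ℂ}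
    (hinv : ∃ (x : Fin n → ℂ) (t : ℂ), eval (fun l => x l + t * (a l : ℂ)) P ≠ eval x P) :
    (hat a P).natDegree ≠ 0 := by
  intro h0
  obtain ⟨x, t, hxt⟩ := hinv
  apply hxt
  have h1 := Polynomial.eq_C_of_natDegree_eq_zero h0
  have h2 := eval_hat a P t x
  have h3 := eval_hat a P 0 x
  rw [h1] at h2 h3
  simp only [Polynomial.map_C, Polynomial.eval_C, zero_mul, add_zero] at h2 h3
  rw [← h2, h3]

theorem elim : Pool.Agent.Q72.EG.S_elim := by
  intro n P R a hP hinv hPR
  obtain ⟨ρ, α, β, hρ, h⟩ := bezout (hat_prime a hP).irreducible (hat_deg a hinv)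
    (fun h => hPR (hat_dvd a h))
  refine ⟨ρ, (optionEquivLeft ℂ (Fin n)).symm α, (optionEquivLeft ℂ (Fin n)).symm β, hρ, ?_⟩
  intro u w
  rw [eval_e, eval_e, AlgEquiv.apply_symm_apply, AlgEquiv.apply_symm_apply]
  have h1 := congrArg (fun q => (Polynomial.map (eval u) q).eval w) h
  simp only [Polynomial.map_C, Polynomial.eval_C, Polynomial.map_add, Polynomial.map_mul,
    Polynomial.eval_add, Polynomial.eval_mul] at h1
  rw [h1, eval_hat, eval_hat]

end Pool.Agent.Q252.EG
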