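import Pool.Agent.Q72.EG.Stm

/-! Project EG of helper72, job FIX. -/

set_option autoImplicit false

namespace Pool.Agent.Q252.EG

open Filter Topology Metric Set

theorem lip {n : ℕ} {c : Fin n → ℂ} {ρ B : ℝ} {h : (Fin n → ℂ) → Fin n → ℂ} (hρ : 0 < ρ)
    (hd : DifferentiableOn ℂ h (ball c ρ)) (hB : ∀ u ∈ ball c ρ, ‖h u‖ ≤ B) (h8 : 8 * B < ρ)
    {u v : Fin n → ℂ} (hu : u ∈ closedBall c (ρ / 4)) (hv : v ∈ closedBall c (ρ / 4)) :
    dist (h u) (h v) ≤ 1 / 3 * dist u v := by
  rcases eq_or_ne u v with rfl | huv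
  · simp
  have hn : 0 < ‖u - v‖ := norm_pos_iff.2 (sub_ne_zero.2 huv)
  have hu' : ‖u - c‖ ≤ ρ / 4 := by rwa [← dist_eq_norm]
  have hv' : ‖v - c‖ ≤ ρ / 4 := by rwa [← dist_eq_norm]
  set R : ℝ := 3 * ρ / (4 * ‖u - v‖) with hR
  have hRpos : 0 < R := by positivity
  have hmap : MapsTo (fun t : ℂ => v + t • (u - v)) (ball 0 R) (ball c ρ) := by
    intro t ht
    rw [mem_ball, dist_eq_norm] at ht ⊢
    rw [sub_zero] at ht
    have h1 : ‖v + t • (u - v) - c‖ ≤ ‖v - c‖ + ‖t‖ * ‖u - v‖ := by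
      rw [← norm_smul]
      have : v + t • (u - v) - c = (v - c) + t • (u - v) := by abel
      rw [this]
      exact norm_add_le _ _
    have h2 : ‖t‖ * ‖u - v‖ < 3 * ρ / 4 := by
      have := mul_lt_mul_of_pos_right ht hn
      have h3 : R * ‖u - v‖ = 3 * ρ / 4 := by rw [hR]; field_simp
      linarith
    linarith
  have hdif : DifferentiableOn ℂ (fun t : ℂ => h (v + t • (u - v))) (ball 0 R) := by
    refine hd.comp ?_ hmap
    fun_prop
  have hmaps : MapsTo (fun t : ℂ => h (v + t • (u - v))) (ball 0 R)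
      (closedBall ((fun t : ℂ => h (v + t • (u - v))) 0) (ρ / 4)) := by
    intro t ht
    have h1 := hB _ (hmap ht)
    have h2 := hB _ (hmap (mem_ball_self hRpos))
    rw [mem_closedBall, dist_eq_norm]
    have h3 := norm_sub_le (h (v + t • (u - v))) (h (v + (0 : ℂ) • (u - v)))
    have h4 : ‖(fun t : ℂ => h (v + t • (u - v))) t - (fun t : ℂ => h (v + t • (u - v))) 0‖ ≤
      ‖h (v + t • (u - v))‖ + ‖h (v + (0 : ℂ) • (u - v))‖ := h3
    simp only at h2
    linarith
  have hR1 : (1 : ℝ) < R := by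
    rw [hR, lt_div_iff₀ (by positivity)]
    have : ‖u - v‖ ≤ ρ / 2 := by
      have h1 : u - v = (u - c) - (v - c) := by abel
      rw [h1]
      exact (norm_sub_le _ _).trans (by linarith)
    linarith
  have hone : (1 : ℂ) ∈ ball (0 : ℂ) R := by simpa using hR1
  have key := Complex.dist_le_div_mul_dist_of_mapsTo_ball hdif hmaps hone
  simp only [one_smul, zero_smul, add_zero, add_sub_cancel, dist_zero_right, norm_one, mul_one] at key
  refine key.trans (le_of_eq ?_)
  rw [hR, dist_eq_norm]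
  field_simp
  try norm_num

theorem fix : Pool.Agent.Q72.EG.S_fix := by
  intro n c ρ B h hρ hd hB h8
  have hsub : closedBall c (ρ / 4) ⊆ ball c ρ := closedBall_subset_ball (by linarith)
  have hmaps : MapsTo (fun u => c + h u) (closedBall c (ρ / 4)) (closedBall c (ρ / 4)) := by
    intro u hu
    rw [mem_closedBall, dist_eq_norm, add_sub_cancel_left]
    have := hB u (hsub hu)
    linarith
  have hcon : ContractingWith (1 / 3 : NNReal) (hmaps.restrict _ _ _) := by
    refine ⟨by
      rw [div_lt_one (by norm_num)]; norm_num, ?_⟩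
    refine LipschitzWith.of_dist_le_mul ?_
    intro u v
    have := lip hρ hd hB h8 u.2 v.2
    rw [Subtype.dist_eq, Subtype.dist_eq]
    simp only [MapsTo.val_restrict_apply, dist_add_left]
    simpa using this
  obtain ⟨y, hy, hfix, -⟩ := ContractingWith.exists_fixedPoint' (isClosed_closedBall.isComplete)
    hmaps hcon (x := c) (mem_closedBall_self (by linarith)) (edist_ne_top _ _)
  exact ⟨y, hsub hy, hfix.symm⟩

end Pool.Agent.Q252.EG
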