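import Pool.Agent.Q72.EG.Stm
import Pool.Agent.W505.ECCpt

/-! Project EG of helper72, job NORM. -/

set_option autoImplicit false

namespace Pool.Agent.Q252.EG

open MvPolynomial Filter Topology Pool.Agent.W996.EC

theorem conv_bound {n : ℕ} {p : ℕ → MvPolynomial (Fin n) ℂ} {q : MvPolynomial (Fin n) ℂ}
    (h : Conv p q) : ∃ (M : ℝ) (d : ℕ), 1 ≤ M ∧ ∀ j x, ‖eval x (p j)‖ ≤ M * (1 + ‖x‖) ^ d := by
  classical
  obtain ⟨⟨d, hd⟩, hc⟩ := h
  set S : Finset (Fin n →₀ ℕ) := Finset.univ.finsupp (fun _ => Finset.range (d + 1)) with hS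
  have hsup : ∀ j, (p j).support ⊆ S := by
    intro j m hm
    rw [hS, Finset.mem_finsupp_iff]
    refine ⟨Finset.subset_univ _, fun i _ => ?_⟩
    rw [Finset.mem_range, Nat.lt_succ_iff]
    have h1 := (le_totalDegree hm).trans (hd j)
    refine le_trans ?_ h1
    by_cases hi : m i = 0
    · rw [hi]; exact Nat.zero_le _
    · exact Finset.single_le_sum (f := fun i => m i) (fun _ _ => Nat.zero_le _)
        (Finsupp.mem_support_iff.2 hi)
  have hM : ∀ m, ∃ M : ℝ, 0 ≤ M ∧ ∀ j, ‖coeff m (p j)‖ ≤ M := by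
    intro m
    obtain ⟨M, hM⟩ := (hc m).norm.bddAbove_range
    refine ⟨max M 0, le_max_right _ _, fun j => (hM ⟨j, rfl⟩).trans (le_max_left _ _)⟩
  choose M hM0 hMb using hM
  refine ⟨1 + ∑ m ∈ S, M m, n * d, ?_, ?_⟩
  · have := Finset.sum_nonneg (s := S) (fun m _ => hM0 m)
    linarith
  intro j x
  have h1 : eval x (p j) = ∑ m ∈ S, coeff m (p j) * ∏ i, x i ^ m i := by
    rw [eval_eq' x (p j)]
    refine Finset.sum_subset (hsup j) ?_
    intro m _ hm
    rw [notMem_support_iff.1 hm, zero_mul]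
  rw [h1]
  have hb : (1 : ℝ) ≤ 1 + ‖x‖ := by have := norm_nonneg x; linarith
  have h2 : ∀ m ∈ S, ‖coeff m (p j) * ∏ i, x i ^ m i‖ ≤ M m * (1 + ‖x‖) ^ (n * d) := by
    intro m hm
    rw [norm_mul]
    refine mul_le_mul (hMb m j) ?_ (norm_nonneg _) (hM0 m)
    rw [norm_prod]
    have h3 : ∀ i ∈ (Finset.univ : Finset (Fin n)), ‖x i ^ m i‖ ≤ (1 + ‖x‖) ^ d := by
      intro i _
      rw [norm_pow]
      have h4 : ‖x i‖ ≤ 1 + ‖x‖ := (norm_le_pi_norm x i).trans (by linarith)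
      have h5 : m i ≤ d := by
        rw [hS, Finset.mem_finsupp_iff] at hm
        by_cases hi : m i = 0
        · rw [hi]; exact Nat.zero_le _
        · have := hm.2 i (Finset.mem_univ _)
          rwa [Finset.mem_range, Nat.lt_succ_iff] at this
      exact (pow_le_pow_left₀ (norm_nonneg _) h4 _).trans (pow_le_pow_right₀ hb h5)
    refine (Finset.prod_le_prod (fun _ _ => norm_nonneg _) h3).trans (le_of_eq ?_)
    rw [Finset.prod_const, Finset.card_univ, Fintype.card_fin, ← pow_mul, mul_comm]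
  refine (norm_sum_le _ _).trans ((Finset.sum_le_sum h2).trans ?_)
  rw [← Finset.sum_mul]
  refine mul_le_mul_of_nonneg_right (by linarith) (by positivity)

theorem norm : Pool.Agent.Q72.EG.S_norm := by
  classical
  intro n ρ lam k hρ hlam
  have hl0 : ∀ j, lam j ≠ 0 := fun j => by have := hlam j; positivity
  obtain ⟨φ, hφ, c, q, hc0, hq, hqd, hconv⟩ := Pool.Agent.W505.EC.t_cpt n ρ.totalDegree
    (fun j => tr (lam j) (k j) ρ) (fun j => totalDegree_tr_le _ _ _)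
    (fun j => tr_ne_zero _ (hl0 j) _ hρ)
  obtain ⟨x0, hx0⟩ : ∃ x0 : Fin n → ℂ, eval x0 ρ ≠ 0 := by
    by_contra hcon
    push Not at hcon
    exact hρ (MvPolynomial.funext fun x => by rw [hcon x, map_zero])
  obtain ⟨M, d, hM1, hM⟩ := conv_bound hconv
  have hr : 0 < ‖eval x0 ρ‖ := norm_pos_iff.2 hx0
  have key : ∀ j, ‖c j‖ ≤ M * (1 + ‖x0‖ + ‖k (φ j)‖) ^ d / ‖eval x0 ρ‖ := by
    intro j
    set y : Fin n → ℂ := fun i => ((lam (φ j))⁻¹ : ℂ) * (x0 i - Complex.I * (k (φ j) i : ℂ)) with hy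
    have h1 := hM j y
    have hne : (lam (φ j) : ℂ) ≠ 0 := by exact_mod_cast hl0 (φ j)
    have h2 : eval y (C (c j) * tr (lam (φ j)) (k (φ j)) ρ) = c j * eval x0 ρ := by
      rw [map_mul, eval_C, eval_tr]
      congr 2
      apply congrArg
      funext i
      rw [hy]
      simp only
      rw [← mul_assoc, mul_inv_cancel₀ hne, one_mul, sub_add_cancel]
    rw [h2, norm_mul] at h1
    rw [le_div_iff₀ hr]
    refine h1.trans ?_
    refine mul_le_mul_of_nonneg_left (pow_le_pow_left₀ (by positivity) ?_ _) (by linarith)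
    have h3 : ‖y‖ ≤ ‖x0‖ + ‖k (φ j)‖ := by
      refine (pi_norm_le_iff_of_nonneg (by positivity)).2 fun i => ?_
      rw [hy]
      simp only
      rw [norm_mul, norm_inv, Complex.norm_real, Real.norm_of_nonneg (by linarith [hlam (φ j)])]
      have h4 : ‖x0 i - Complex.I * (k (φ j) i : ℂ)‖ ≤ ‖x0‖ + ‖k (φ j)‖ := by
        refine (norm_sub_le _ _).trans (add_le_add (norm_le_pi_norm x0 i) ?_)
        rw [norm_mul, Complex.norm_I, one_mul, Complex.norm_real]
        exact norm_le_pi_norm (k (φ j)) i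
      have h5 : (lam (φ j))⁻¹ ≤ 1 := inv_le_one_of_one_le₀ (hlam _)
      calc (lam (φ j))⁻¹ * ‖x0 i - Complex.I * (k (φ j) i : ℂ)‖
          ≤ 1 * ‖x0 i - Complex.I * (k (φ j) i : ℂ)‖ :=
            mul_le_mul_of_nonneg_right h5 (norm_nonneg _)
        _ ≤ _ := by rw [one_mul]; exact h4
    linarith
  -- absorb the constants
  obtain ⟨a, ha⟩ : ∃ a : ℕ, M * (1 + ‖x0‖) ^ d / ‖eval x0 ρ‖ ≤ 2 ^ a :=
    pow_unbounded_of_one_lt _ (by norm_num) |>.imp fun _ h => h.le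
  refine ⟨φ, c, q, (a + d : ℕ), hφ, hq, hconv, fun j => ?_⟩
  rw [Real.rpow_natCast]
  set b : ℝ := 2 + lam (φ j) + ‖k (φ j)‖ with hb
  have hlj := hlam (φ j)
  have hkn := norm_nonneg (k (φ j))
  have hb2 : 2 ≤ b := by rw [hb]; linarith
  have h1 : (1 + ‖x0‖ + ‖k (φ j)‖) ≤ (1 + ‖x0‖) * b := by
    have := norm_nonneg x0
    nlinarith
  calc ‖c j‖ ≤ M * (1 + ‖x0‖ + ‖k (φ j)‖) ^ d / ‖eval x0 ρ‖ := key j
    _ ≤ M * ((1 + ‖x0‖) * b) ^ d / ‖eval x0 ρ‖ := by
        refine div_le_div_of_nonneg_right (mul_le_mul_of_nonneg_left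
          (pow_le_pow_left₀ (by positivity) h1 _) (by linarith)) hr.le
    _ = (M * (1 + ‖x0‖) ^ d / ‖eval x0 ρ‖) * b ^ d := by rw [mul_pow]; ring
    _ ≤ 2 ^ a * b ^ d := mul_le_mul_of_nonneg_right ha (by positivity)
    _ ≤ b ^ a * b ^ d := mul_le_mul_of_nonneg_right (pow_le_pow_left₀ (by norm_num) hb2 _)
        (by positivity)
    _ = b ^ (a + d) := (pow_add _ _ _).symm

end Pool.Agent.Q252.EG
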